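import Pool.Agent.L5helper72.BD.Defs
import Pool.Agent.H770Sun.Sing1

/-!
# Choice of the parameters (for helper72's BD)
-/

set_option autoImplicit false

namespace Pool.Agent.L5helper33.BD
open Finset Filter Topology

/-- lower bound for the product -/
lemma prod_lower (C1 : ℝ) (hC1 : 0 < C1) (hm : ∀ N : ℕ, 3 ≤ N →
    ∏ p ∈ (Icc 1 N).filter Nat.Prime, (1 + 1 / ((p : ℝ) - 1)) ≤ C1 * Real.log N)
    (z F : ℕ) (hF : 3 ≤ F) :
    1 ≤ (∏ p ∈ (Ioc z F).filter Nat.Prime, (1 - 1 / (p : ℝ))) * (C1 * Real.log F) ∧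
    0 < ∏ p ∈ (Ioc z F).filter Nat.Prime, (1 - 1 / (p : ℝ)) := by
  have hpos : 0 < ∏ p ∈ (Ioc z F).filter Nat.Prime, (1 - 1 / (p : ℝ)) := by
    apply prod_pos
    intro p hp
    have hp2 := (mem_filter.1 hp).2
    have : (1 : ℝ) < p := by exact_mod_cast hp2.one_lt
    have h2 : 1 / (p : ℝ) < 1 := by
      rw [div_lt_one (by linarith)]; exact this
    linarith
  refine ⟨?_, hpos⟩
  have h1 : (∏ p ∈ (Ioc z F).filter Nat.Prime, (1 - 1 / (p : ℝ))) *
      ∏ p ∈ (Ioc z F).filter Nat.Prime, (1 + 1 / ((p : ℝ) - 1)) = 1 := by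
    rw [← prod_mul_distrib]
    apply prod_eq_one
    intro p hp
    have hp2 := (mem_filter.1 hp).2
    have : (1 : ℝ) < p := by exact_mod_cast hp2.one_lt
    have h3 : (p : ℝ) ≠ 0 := by linarith
    have h4 : (p : ℝ) - 1 ≠ 0 := by linarith
    field_simp
    ring
  have h2 : ∏ p ∈ (Ioc z F).filter Nat.Prime, (1 + 1 / ((p : ℝ) - 1)) ≤ C1 * Real.log F := by
    refine le_trans (Pool.Agent.H770Sun.prod_mono_fac _ _ (fun p hp => (mem_filter.1 hp).2) ?_)
      (hm F hF)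
    intro p hp
    rw [mem_filter, mem_Ioc] at hp
    rw [mem_filter, mem_Icc]
    exact ⟨⟨hp.2.one_lt.le, hp.1.2⟩, hp.2⟩
  calc (1 : ℝ) = _ := h1.symm
    _ ≤ _ := mul_le_mul_of_nonneg_left h2 hpos.le

/-- the ratio tends to zero -/
lemma ratio_tendsto (A c : ℝ) (θ : ℝ) (g : ℕ) (hg : ((g : ℝ) + 1) * θ < g) (hg1 : 1 ≤ g) :
    Tendsto (fun z : ℕ => (2 * A * (4 : ℝ) ^ (((g : ℝ) + 1) * θ * z) + c + z) /
      (4 : ℝ) ^ (z * g)) atTop (𝓝 0) := by
  have h4g : (1 : ℝ) < (4 : ℝ) ^ g := one_lt_pow₀ (by norm_num) (by omega)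
  have h4g0 : (0 : ℝ) < (4 : ℝ) ^ g := by positivity
  have hq : (4 : ℝ) ^ (((g : ℝ) + 1) * θ) / (4 : ℝ) ^ g < 1 := by
    rw [div_lt_one h4g0, ← Real.rpow_natCast 4 g]
    exact Real.rpow_lt_rpow_of_exponent_lt (by norm_num) hg
  have hq0 : 0 ≤ (4 : ℝ) ^ (((g : ℝ) + 1) * θ) / (4 : ℝ) ^ g := by positivity
  have t1 := (tendsto_pow_atTop_nhds_zero_of_lt_one hq0 hq).const_mul (2 * A)
  have t2 := (tendsto_pow_const_div_const_pow_of_one_lt 0 h4g).const_mul c
  have t3 := tendsto_pow_const_div_const_pow_of_one_lt 1 h4g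
  have t := (t1.add t2).add t3
  simp only [mul_zero, add_zero] at t
  refine t.congr (fun z => ?_)
  have e1 : (4 : ℝ) ^ (((g : ℝ) + 1) * θ * z) = ((4 : ℝ) ^ (((g : ℝ) + 1) * θ)) ^ z := by
    rw [Real.rpow_mul_natCast (by norm_num)]
  have e2 : (4 : ℝ) ^ (z * g) = ((4 : ℝ) ^ g) ^ z := by rw [mul_comm, pow_mul]
  rw [e1, e2, div_pow, pow_zero, pow_one]
  have h5 : ((4 : ℝ) ^ g) ^ z ≠ 0 := by positivity
  field_simp

/-- the exponent of the second condition -/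
lemma w_tendsto (g : ℕ) :
    Tendsto (fun z : ℕ => ((⌈(z : ℝ) * (g * Real.log 4) / Real.log z⌉₊ : ℕ) : ℝ) / z) atTop
      (𝓝 0) := by
  have t1 : Tendsto (fun z : ℕ => (g * Real.log 4) / Real.log z + 1 / (z : ℝ)) atTop (𝓝 0) := by
    have a : Tendsto (fun z : ℕ => Real.log (z : ℝ)) atTop atTop :=
      Real.tendsto_log_atTop.comp tendsto_natCast_atTop_atTop
    have b := a.const_div_atTop ((g : ℝ) * Real.log 4)
    have c := b.add tendsto_one_div_atTop_nhds_zero_nat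
    simpa using c
  refine squeeze_zero' (Eventually.of_forall fun z => by positivity) ?_ t1
  filter_upwards [eventually_ge_atTop 2] with z hz
  have hz0 : (0 : ℝ) < z := by exact_mod_cast (by omega : 0 < z)
  have hlog : 0 < Real.log z := Real.log_pos (by exact_mod_cast (by omega : 1 < z))
  have hl4 : 0 ≤ Real.log 4 := Real.log_nonneg (by norm_num)
  have h0 : 0 ≤ (z : ℝ) * (g * Real.log 4) / Real.log z := by positivity
  have h1 := (Nat.ceil_lt_add_one h0).le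
  calc ((⌈(z : ℝ) * (g * Real.log 4) / Real.log z⌉₊ : ℕ) : ℝ) / z
      ≤ ((z : ℝ) * (g * Real.log 4) / Real.log z + 1) / z := by gcongr
    _ = (g * Real.log 4) / Real.log z + 1 / (z : ℝ) := by
        field_simp

theorem PAR_holds : Pool.Agent.L5helper72.BD.St_PAR := by
  intro A C θ δ m hA hθ hθ1 hδ
  obtain ⟨C1, hC1, hm⟩ := Pool.Agent.H770Sun.mertens_prod
  have h1θ : 0 < 1 - θ := by linarith
  obtain ⟨g, hg⟩ := exists_nat_gt (θ / (1 - θ))
  have hg' : θ < g * (1 - θ) := by rwa [div_lt_iff₀ h1θ] at hg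
  have hg2 : ((g : ℝ) + 1) * θ < g := by nlinarith
  have hg1 : 1 ≤ g := by
    rcases Nat.eq_zero_or_pos g with h | h
    · subst h; simp at hg'; linarith
    · exact h
  have hr := (ratio_tendsto A (|C| + 4) θ g hg2 hg1).const_mul C1
  rw [mul_zero] at hr
  have hw : Tendsto (fun z : ℕ => Real.exp (((⌈(z : ℝ) * (g * Real.log 4) / Real.log z⌉₊ : ℕ) : ℝ)
      / z)) atTop (𝓝 1) := by
    have := (Real.continuous_exp.tendsto 0).comp (w_tendsto g)
    rwa [Real.exp_zero] at this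
  have ev1 := hr.eventually_lt_const (show (0 : ℝ) < δ / 8 by positivity)
  have ev2 := hr.eventually_lt_const (show (0 : ℝ) < 1 / (2 * m + 1) by positivity)
  have ev3 := hw.eventually_lt_const (show (1 : ℝ) < 1 + δ / 8 by linarith)
  obtain ⟨z, ⟨⟨hz1, hz2⟩, hz3⟩, hz4⟩ :=
    (((ev1.and ev2).and ev3).and (eventually_ge_atTop 2)).exists
  have hz0 : (0 : ℝ) < z := by exact_mod_cast (by omega : 0 < z)
  have hlog : 0 < Real.log z := Real.log_pos (by exact_mod_cast (by omega : 1 < z))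
  set w : ℕ := ⌈(z : ℝ) * (g * Real.log 4) / Real.log z⌉₊ with hwdef
  set J : ℕ := 4 ^ (z * g) with hJ
  set U : ℝ := (4 : ℝ) ^ (((g : ℝ) + 1) * θ * z) with hU
  set r : ℝ := (2 * A * U + (|C| + 4) + z) / (4 : ℝ) ^ (z * g) with hrdef
  set X : ℕ := primorial z * (J + 1) with hX
  set F : ℕ := ⌈Real.exp (A * (X : ℝ) ^ θ) + |C| + z + 3⌉₊ with hFdef
  have hU0 : 0 < U := by positivity
  have hJr : (J : ℝ) = (4 : ℝ) ^ (z * g) := by rw [hJ]; push_cast; rfl
  have hJ0 : (0 : ℝ) < (4 : ℝ) ^ (z * g) := by positivity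
  have hr0 : 0 < r := by
    have : 0 ≤ |C| := abs_nonneg C
    positivity
  -- J ≤ z ^ (w+1)
  have hJw : J ≤ z ^ (w + 1) := by
    have h1 : (J : ℝ) ≤ (z : ℝ) ^ w := by
      rw [hJr, ← Real.exp_log hJ0, ← Real.exp_log (pow_pos hz0 w)]
      apply Real.exp_le_exp.2
      rw [Real.log_pow, Real.log_pow]
      have h2 := Nat.le_ceil ((z : ℝ) * (g * Real.log 4) / Real.log z)
      rw [← hwdef, div_le_iff₀ hlog] at h2
      push_cast
      linarith
    have h2 : J ≤ z ^ w := by exact_mod_cast h1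
    exact h2.trans (Nat.pow_le_pow_right (by omega) (by omega))
  have hFge : Real.exp (A * (X : ℝ) ^ θ) + |C| + z + 3 ≤ F := Nat.le_ceil _
  have habs : 0 ≤ |C| := abs_nonneg C
  have hexp0 : 0 < Real.exp (A * (X : ℝ) ^ θ) := Real.exp_pos _
  have hF3 : 3 ≤ F := by
    have : (3 : ℝ) ≤ F := by linarith
    exact_mod_cast this
  have hzF : z ≤ F := by
    have : (z : ℝ) ≤ F := by linarith
    exact_mod_cast this
  -- bound for X ^ θ
  have hXθ : (X : ℝ) ^ θ ≤ 2 * U := by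
    have hP : ((primorial z : ℕ) : ℝ) ≤ (4 : ℝ) ^ z := by
      exact_mod_cast primorial_le_four_pow z
    have h1 : (X : ℝ) ≤ 2 * (4 : ℝ) ^ (z * (g + 1)) := by
      rw [hX]; push_cast
      rw [hJr]
      have h2 : (1 : ℝ) ≤ (4 : ℝ) ^ (z * g) := one_le_pow₀ (by norm_num)
      calc ((primorial z : ℕ) : ℝ) * ((4 : ℝ) ^ (z * g) + 1)
          ≤ (4 : ℝ) ^ z * (2 * (4 : ℝ) ^ (z * g)) := by
            apply mul_le_mul hP (by linarith) (by positivity) (by positivity)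
        _ = 2 * (4 : ℝ) ^ (z * (g + 1)) := by rw [mul_add, mul_one, pow_add]; ring
    calc (X : ℝ) ^ θ ≤ (2 * (4 : ℝ) ^ (z * (g + 1))) ^ θ :=
          Real.rpow_le_rpow (by positivity) h1 hθ.le
      _ = (2 : ℝ) ^ θ * ((4 : ℝ) ^ (z * (g + 1))) ^ θ := Real.mul_rpow (by norm_num) (by positivity)
      _ ≤ 2 * U := by
        have h3 : (2 : ℝ) ^ θ ≤ 2 := by
          calc (2 : ℝ) ^ θ ≤ (2 : ℝ) ^ (1 : ℝ) :=
                Real.rpow_le_rpow_of_exponent_le (by norm_num) hθ1.le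
            _ = 2 := Real.rpow_one 2
        have h4 : ((4 : ℝ) ^ (z * (g + 1))) ^ θ = U := by
          rw [← Real.rpow_natCast, ← Real.rpow_mul (by norm_num), hU]
          congr 1
          push_cast
          ring
        rw [h4]
        exact mul_le_mul_of_nonneg_right h3 hU0.le
  have hlogF : Real.log F ≤ 2 * A * U + (|C| + 4) + z := by
    have hF1 : (F : ℝ) ≤ Real.exp (A * (X : ℝ) ^ θ) + |C| + z + 3 + 1 :=
      (Nat.ceil_lt_add_one (by positivity)).le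
    have h1 : Real.exp (A * (X : ℝ) ^ θ) ≤ Real.exp (2 * A * U) := by
      apply Real.exp_le_exp.2
      nlinarith
    have h2 : (1 : ℝ) ≤ Real.exp (2 * A * U) := Real.one_le_exp (by positivity)
    have h3 : (|C| + 4 + z) + 1 ≤ Real.exp (|C| + 4 + z) := Real.add_one_le_exp _
    have h4 : (F : ℝ) ≤ Real.exp (2 * A * U) * Real.exp (|C| + 4 + z) := by
      have h5 : Real.exp (2 * A * U) * ((|C| + 4 + z) + 1) ≤
          Real.exp (2 * A * U) * Real.exp (|C| + 4 + z) :=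
        mul_le_mul_of_nonneg_left h3 (Real.exp_pos _).le
      have h6 : 0 ≤ (Real.exp (2 * A * U) - 1) * (|C| + 4 + z) :=
        mul_nonneg (by linarith) (by positivity)
      nlinarith
    rw [← Real.exp_add] at h4
    have hF0 : (0 : ℝ) < F := by exact_mod_cast (by omega : 0 < F)
    calc Real.log F ≤ Real.log (Real.exp (2 * A * U + (|C| + 4 + z))) := Real.log_le_log hF0 h4
      _ = 2 * A * U + (|C| + 4) + z := by rw [Real.log_exp]; ring
  obtain ⟨hπ1, hπ0⟩ := prod_lower C1 hC1 hm z F hF3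
  set π : ℝ := ∏ p ∈ (Ioc z F).filter Nat.Prime, (1 - 1 / (p : ℝ)) with hπ
  -- μ * (C1 r) ≥ 1
  have hμ : 1 ≤ ((J : ℝ) * π) * (C1 * r) := by
    have e : ((J : ℝ) * π) * (C1 * r) = π * (C1 * (2 * A * U + (|C| + 4) + z)) := by
      rw [hJr, hrdef]
      field_simp
    rw [e]
    refine hπ1.trans ?_
    apply mul_le_mul_of_nonneg_left _ hπ0.le
    exact mul_le_mul_of_nonneg_left hlogF hC1.le
  have hμ0 : 0 < (J : ℝ) * π := mul_pos (by rw [hJr]; exact hJ0) hπ0
  have hCr : 0 < C1 * r := mul_pos hC1 hr0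
  refine ⟨z, w, J, F, by omega, ?_, hJw, hzF, ?_, ?_, ?_⟩
  · rw [hJ]; exact Nat.one_le_iff_ne_zero.2 (by positivity)
  · have := le_abs_self C
    linarith
  · -- 2 m ≤ μ
    by_contra hcon
    push Not at hcon
    rw [lt_div_iff₀ (by positivity)] at hz2
    have h1 : ((J : ℝ) * π) * (C1 * r) < 2 * m * (C1 * r) :=
      mul_lt_mul_of_pos_right hcon hCr
    nlinarith
  · have h1 : 4 / ((J : ℝ) * π) ≤ δ / 2 := by
      rw [div_le_iff₀ hμ0]
      have h2 : ((J : ℝ) * π) * (C1 * r) ≤ ((J : ℝ) * π) * (δ / 8) :=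
        mul_le_mul_of_nonneg_left hz1.le hμ0.le
      linarith
    have h2 : (1 + 1 / (z : ℝ)) ^ w ≤ 1 + δ / 8 := by
      have h3 : (1 + 1 / (z : ℝ)) ^ w ≤ Real.exp (1 / (z : ℝ)) ^ w := by
        apply pow_le_pow_left₀ (by positivity)
        have := Real.add_one_le_exp (1 / (z : ℝ))
        linarith
      have h4 : Real.exp (1 / (z : ℝ)) ^ w = Real.exp ((w : ℝ) / z) := by
        rw [← Real.exp_nat_mul]
        congr 1
        ring
      rw [h4] at h3
      exact h3.trans hz3.le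
    linarith

end Pool.Agent.L5helper33.BD
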